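import Pool.Agent.H11Glauber.Region

/-!
MP_eb4d96_pr: a uniform complex contraction region for hard-core Glauber dynamics.
-/

open H11Glauber in
theorem Pool.Agent.Results.MP_eb4d96_pr.UniformDomain.result (Δ : ℕ) (hΔ : 2 ≤ Δ) :
    (∃ D : Set ℂ, IsOpen D ∧ IsConnected D ∧
      (∀ t : ℝ, 0 ≤ t → t < 1 / ((Δ : ℝ) - 1) → (t : ℂ) ∈ D) ∧
      ∀ (V : Type) [Fintype V] [DecidableEq V] [Nonempty V] (G : SimpleGraph V)
        [DecidableRel G.Adj], (∀ x, G.degree x ≤ Δ) →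
        ∀ w ∈ D, w ≠ -1 ∧ SprLtOne (glauber G fun _ => w)) ∧
    (∀ a : ℝ, a < 1 / ((Δ : ℝ) - 1) → ∃ D : Set ℂ, IsOpen D ∧ IsConnected D ∧
      (∀ t : ℝ, 0 ≤ t → t ≤ a → (t : ℂ) ∈ D) ∧
      ∀ (V : Type) [Fintype V] [DecidableEq V] [Nonempty V] (G : SimpleGraph V)
        [DecidableRel G.Adj], (∀ x, G.degree x ≤ Δ) →
        ∀ w : V → ℂ, (∀ x, w x ∈ D) → (∀ x, w x ≠ -1) ∧ SprLtOne (glauber G w)) :=
  H11Glauber.main hΔ
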